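import Pool.Agent.R310.FAD.CaseA

/-!
# Zeta functions of FAD-systems: root-rational or natural boundary

For every FAD-system `(X, f)` (definition `IsFAD`), the Artin-Mazur zeta function `zeta f` is either
root-rational or has the circle `‖z‖ = 1 / Λ` as a natural boundary; in the second case there is not
even a meromorphic continuation to any open set meeting the circle.
No hyperbolicity and no integrality of the exponents `t_{p,n}` is assumed.

Sketch. Write `f_n = D(n) c ^ n a(n)` with `D(n) = det (A ^ n - 1)` and `a` the product of a sign, the gcd
sequence and the p-adic factors. If all exponents vanish, `a` is a gcd sequence; Fermat type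
congruences `f_q ≡ f_1`, `D(q) ≡ D(1)` mod primes `q` and Dirichlet's theorem force `c` to be rational,
and the zeta function is a product of rational powers of polynomials. Otherwise `a` is a
non-periodic uniform limit of gcd sequences. The expansion of `D(n)` in powers of products of
eigenvalues has a term of maximal modulus which differs from all the others of maximal modulus by
non-torsion factors; a continuation across an arc then kills all Fourier coefficients of `a` at roots
of unity in an arc, hence (these coefficients are invariant under raising the root of unity to powers
`≡ 1`) at all roots of unity of large order, so that `a` is periodic, a contradiction.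
-/

set_option autoImplicit false

namespace Pool.Agent.Results.MP_dde008_nt.NaturalBoundary

open Pool.Agent.R310.FAD

/-- Every FAD-system whose zeta function is not root-rational has a natural boundary along the circle
`‖z‖ = 1 / Λ`: the zeta function is analytic inside and has no meromorphic (in particular no
analytic) continuation to any open set meeting the circle. -/
theorem result {X : Type*} (f : X → X) (hf : IsFAD f) (hrr : ¬ RootRational f) :
    StrongNaturalBoundary (zeta f) (1 / Lam f) := by
  obtain ⟨hfin, d, A, S, c, r, s, t, hS, hc, hr, hrN, hst, hform⟩ := hf
  by_cases hD : ∀ n, 1 ≤ n → (A ^ n - 1).det ≠ 0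
  · by_cases hne : ∃ p ∈ S, ∃ n, 1 ≤ n ∧ ¬ (s p n = 0 ∧ t p n = 0)
    · obtain ⟨p, hp, n, hn, hpn⟩ := hne
      exact caseB hS hc hr hrN hst hform hD hp hn hpn
    · exfalso
      apply hrr
      push Not at hne
      refine caseA hfin hc hr hrN (fun n hn => ?_) hD
      rw [hform n hn, Finset.prod_eq_one, mul_one]
      intro p hp
      obtain ⟨h1, h2⟩ := hne p hp n hn
      rw [h1, h2, Real.rpow_zero, neg_zero, zero_mul, Real.rpow_zero, mul_one]
  · exfalso
    apply hrr
    push Not at hD
    obtain ⟨n₀, hn₀, h0⟩ := hD
    refine caseZero hfin (A := A) (G := fun n => c ^ n * r n *
      ∏ p ∈ S, (((padicNorm p n : ℚ) : ℝ) ^ (s p n) *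
        (p : ℝ) ^ (-(t p n) * ((padicNorm p n : ℚ) : ℝ)⁻¹))) (fun n hn => ?_) hn₀ h0
    rw [hform n hn]; ring

end Pool.Agent.Results.MP_dde008_nt.NaturalBoundary
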